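import Pool.Agent.Helper57.SL.Assemble
import Pool.Agent.Helper48.SL.S1a

/-!
# MP_f97382, sharp lower bound, row S1
-/

set_option autoImplicit false

namespace Pool.Agent.Helper57.SL

open Classical in
theorem spread (k : ℕ) (hk : 2 ≤ k) {J B : Type} [Fintype J] [Fintype B]
    (S : B → Finset J) (hS : ∀ b, (S b).card ≤ k) (E : J → J → Prop) (hE : ∀ i j, E i j → i ≠ j)
    (lam : ℕ) (hlam : 0 < lam)
    (hlam2 : ∀ i j, E i j → lam ≤ (Finset.univ.filter fun b => i ∈ S b ∧ j ∈ S b).card)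
    (ε : ℝ) (hε : 0 < ε) :
    ∃ (G F : Type) (_ : Fintype G) (_ : Nonempty G) (_ : Fintype F) (blk : F → J × G → Prop),
      (∀ f, (Finset.univ.filter fun v => blk f v).card ≤ k) ∧
      (∀ (i : J) (z : G), ((Finset.univ.filter fun f => blk f (i, z)).card : ℝ) ≤
        (((Finset.univ.filter fun b => i ∈ S b).card : ℝ) / lam + ε) * Fintype.card G) ∧
      (∀ i j, E i j → ∀ z z' : G, ∃ f, blk f (i, z) ∧ blk f (j, z')) :=
  spread_of_pattern (fun J _ _ => Helper48.SL.pattern J) k hk S hS E hE lam hlam hlam2 ε hε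

end Pool.Agent.Helper57.SL
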