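import Pool.Agent.Helper57.SL.Thin

/-!
# MP_f97382, sharp lower bound, the weights of row S4

All hypotheses of `frac_lower_bound` for `w i = w0 * a i`, from the pencils.
-/

set_option autoImplicit false

namespace Pool.Agent.Helper57.SL

open Classical in
theorem pencil_weights (k : ℕ) (hk : 2 ≤ k) {I X P : Type} [Fintype I] [Fintype P]
    (hub : I → Finset X) (pen : P → Finset I) (a : I → ℝ) (w0 A0 : ℝ)
    (ha0 : ∀ i, 0 ≤ a i) (ha1 : ∀ i, a i ≤ 1) (hw0 : 0 ≤ w0)
    (hcov : ∀ i j, i ≠ j → Disjoint (hub i) (hub j) → ∃ p, i ∈ pen p ∧ j ∈ pen p)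
    (hA : ∀ p, A0 ≤ ∑ i ∈ pen p, a i)
    (hdeg : ∀ i, w0 * ∑ p ∈ Finset.univ.filter (fun p => i ∈ pen p),
      ((∑ j ∈ (pen p).erase i, a j) / (k - 1) + 2 ^ k * Real.exp (-(A0 - 1) / 2)) ≤ 1) :
    ∃ x : Finset I → ℝ, (∀ S, 0 ≤ x S) ∧ (∀ S : Finset I, k < S.card → x S = 0) ∧
      (∀ i j, i ≠ j → Disjoint (hub i) (hub j) →
        w0 * a i * (w0 * a j) ≤
          ∑ S ∈ Finset.univ.filter (fun S : Finset I => i ∈ S ∧ j ∈ S), x S) ∧
      (∀ i, ∑ S ∈ Finset.univ.filter (fun S : Finset I => i ∈ S), x S ≤ w0 * a i) := by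
  choose y hy0 hyk hyP hyc hyd using fun p => thin k hk (pen p) a ha0 ha1
  refine ⟨fun S => w0 ^ 2 * ∑ p, y p S, ?_, ?_, ?_, ?_⟩
  · intro S
    exact mul_nonneg (sq_nonneg _) (Finset.sum_nonneg fun p _ => hy0 p S)
  · intro S hS
    simp only
    rw [Finset.sum_eq_zero fun p _ => hyk p S hS, mul_zero]
  · intro i j hij hd
    obtain ⟨p, hi, hj⟩ := hcov i j hij hd
    simp only
    rw [← Finset.mul_sum]
    have h1 : w0 * a i * (w0 * a j) = w0 ^ 2 * (a i * a j) := by ring
    rw [h1]
    refine mul_le_mul_of_nonneg_left ((hyc p i hi j hj hij).trans ?_) (sq_nonneg _)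
    refine Finset.sum_le_sum fun S _ => ?_
    exact Finset.single_le_sum (f := fun p => y p S) (fun q _ => hy0 q S) (Finset.mem_univ p)
  · intro i
    simp only
    rw [← Finset.mul_sum, Finset.sum_comm]
    have h1 : ∀ p, ∑ S ∈ Finset.univ.filter (fun S : Finset I => i ∈ S), y p S ≤
        if i ∈ pen p then a i * ((∑ j ∈ (pen p).erase i, a j) / (k - 1) +
          2 ^ k * Real.exp (-(A0 - 1) / 2)) else 0 := by
      intro p
      split_ifs with hi
      · refine (hyd p i hi).trans (mul_le_mul_of_nonneg_left ?_ (ha0 i))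
        have h2 : ∏ j ∈ (pen p).erase i, (1 - a j / 2) ≤ Real.exp (-(A0 - 1) / 2) := by
          have h3 : ∏ j ∈ (pen p).erase i, (1 - a j / 2) ≤
              ∏ j ∈ (pen p).erase i, Real.exp (-(a j / 2)) := by
            refine Finset.prod_le_prod (fun j _ => ?_) (fun j _ => ?_)
            · have := ha1 j
              linarith
            · have := Real.add_one_le_exp (-(a j / 2))
              linarith
          refine h3.trans ?_
          rw [← Real.exp_sum]
          refine Real.exp_le_exp.2 ?_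
          rw [Finset.sum_neg_distrib, ← Finset.sum_div]
          have h4 := Finset.add_sum_erase (pen p) a hi
          have h5 := hA p
          have h6 := ha1 i
          linarith
        have h7 : (0 : ℝ) ≤ 2 ^ k := by positivity
        have h8 := mul_le_mul_of_nonneg_left h2 h7
        linarith
      · refine le_of_eq (Finset.sum_eq_zero fun S hS => hyP p S ?_)
        intro h
        exact hi (h (Finset.mem_filter.1 hS).2)
    have h9 : ∑ p, ∑ S ∈ Finset.univ.filter (fun S : Finset I => i ∈ S), y p S ≤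
        a i * ∑ p ∈ Finset.univ.filter (fun p => i ∈ pen p),
          ((∑ j ∈ (pen p).erase i, a j) / (k - 1) + 2 ^ k * Real.exp (-(A0 - 1) / 2)) := by
      refine (Finset.sum_le_sum fun p _ => h1 p).trans (le_of_eq ?_)
      rw [← Finset.sum_filter, Finset.mul_sum]
    have h10 := mul_le_mul_of_nonneg_left h9 (sq_nonneg w0)
    have h11 := mul_le_mul_of_nonneg_left (hdeg i) (mul_nonneg hw0 (ha0 i))
    refine h10.trans (le_trans (le_of_eq ?_) (h11.trans (le_of_eq (mul_one _))))
    ring

end Pool.Agent.Helper57.SL
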