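import Pool.Agent.Helper14.SL.Frac
import Pool.Agent.Helper57.SL.Spread
import Pool.Agent.Helper57.SL.Weights

/-!
# MP_f97382, sharp lower bound, rows S2 and S4: the lower bound from pencils
-/

set_option autoImplicit false

namespace Pool.Agent.Helper57.SL

open Pool.Agent.Helper14.Square

open Classical in
theorem frac_lower_bound (k : ℕ) (hk : 2 ≤ k) {I X : Type} [Fintype I] [Fintype X]
    (hub : I → Finset X) (w : I → ℝ) (x : Finset I → ℝ)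
    (hhub : ∀ i, (hub i).card ≤ k) (hhub0 : ∀ i, (hub i).Nonempty)
    (hw : ∀ i, 0 ≤ w i)
    (hload : ∀ h, ∑ i ∈ Finset.univ.filter (fun i => h ∈ hub i), w i ≤ 1)
    (hx0 : ∀ S, 0 ≤ x S) (hxk : ∀ S : Finset I, k < S.card → x S = 0)
    (hcov : ∀ i j, i ≠ j → Disjoint (hub i) (hub j) →
      w i * w j ≤ ∑ S ∈ Finset.univ.filter (fun S : Finset I => i ∈ S ∧ j ∈ S), x S)
    (hdeg : ∀ i, ∑ S ∈ Finset.univ.filter (fun S : Finset I => i ∈ S), x S ≤ w i)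
    (ε : ℝ) (hε : 0 < ε) :
    ∃ C : ℝ, ∀ D : ℕ, (∑ i, w i - ε) * D - C ≤ M k D :=
  Pool.Agent.Helper14.SL.frac_of_spread (fun k hk _ _ _ _ S a E b lam c d e f =>
    spread k hk S a E b lam c d e f) k hk hub w x hhub hhub0 hw hload hx0 hxk hcov hdeg ε hε

open Classical in
theorem pencil_lower_bound (k : ℕ) (hk : 2 ≤ k) {I X P : Type} [Fintype I] [Fintype X] [Fintype P]
    (hub : I → Finset X) (pen : P → Finset I) (a : I → ℝ) (w0 A0 : ℝ)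
    (hhub : ∀ i, (hub i).card ≤ k) (hhub0 : ∀ i, (hub i).Nonempty)
    (ha0 : ∀ i, 0 ≤ a i) (ha1 : ∀ i, a i ≤ 1) (hw0 : 0 ≤ w0)
    (hload : ∀ h, w0 * ∑ i ∈ Finset.univ.filter (fun i => h ∈ hub i), a i ≤ 1)
    (hcov : ∀ i j, i ≠ j → Disjoint (hub i) (hub j) → ∃ p, i ∈ pen p ∧ j ∈ pen p)
    (hA : ∀ p, A0 ≤ ∑ i ∈ pen p, a i)
    (hdeg : ∀ i, w0 * ∑ p ∈ Finset.univ.filter (fun p => i ∈ pen p),
      ((∑ j ∈ (pen p).erase i, a j) / (k - 1) + 2 ^ k * Real.exp (-(A0 - 1) / 2)) ≤ 1)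
    (ε : ℝ) (hε : 0 < ε) :
    ∃ C : ℝ, ∀ D : ℕ, (w0 * ∑ i, a i - ε) * D - C ≤ M k D := by
  obtain ⟨x, hx0, hxk, hxc, hxd⟩ := pencil_weights k hk hub pen a w0 A0 ha0 ha1 hw0 hcov hA hdeg
  obtain ⟨C, hC⟩ := frac_lower_bound k hk hub (fun i => w0 * a i) x hhub hhub0
    (fun i => mul_nonneg hw0 (ha0 i)) (fun h => by rw [← Finset.mul_sum]; exact hload h)
    hx0 hxk hxc hxd ε hε
  refine ⟨C, fun D => ?_⟩
  rw [Finset.mul_sum]
  exact hC D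

end Pool.Agent.Helper57.SL
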