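import Mathlib

/-!
# MP_f97382, sharp lower bound, row S1 step (3): assembly of `spread` from the pattern lemma
-/

set_option autoImplicit false

namespace Pool.Agent.Helper57.SL

open Finset

/-- The statement of the pattern lemma (steps 1 and 2). -/
def Pattern : Prop := ∀ (J : Type) [Fintype J] [DecidableEq J], ∃ N p0 : ℕ, ∀ p : ℕ, p0 ≤ p →
  ∀ [Fact p.Prime], p % 4 = 1 → ∀ e : J → J → ℤ, (∀ i j, e i j = e j i) →
    (∀ i j, e i j = 1 ∨ e i j = -1) →
    ∃ c : J → Fin N → ZMod p, (∀ i j r, i ≠ j → c i r ≠ c j r) ∧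
      ∀ i j, i ≠ j → ∏ r, quadraticChar (ZMod p) (c i r - c j r) = e i j

section count

variable {p s N : ℕ} [Fact p.Prime]

/-- The group. -/
abbrev Gm (p s N : ℕ) : Type := Fin s → Fin N → ZMod p

noncomputable instance instGm (p s N : ℕ) [Fact p.Prime] : Fintype (Gm p s N) := inferInstance

/-- The multipliers. -/
noncomputable def Hs (p s N : ℕ) [Fact p.Prime] : Finset (Gm p s N) :=
  Finset.univ.filter fun h => (∀ v r, h v r ≠ 0) ∧
    ∀ v, ∏ r, quadraticChar (ZMod p) (h v r) = 1

lemma card_Hs (hN : 0 < N) (hp : p ≠ 2) :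
    2 ^ s * (Hs p s N).card ≤ Fintype.card (Gm p s N) := by
  classical
  obtain ⟨n, hn⟩ := quadraticChar_exists_neg_one (F := ZMod p)
    (by rw [ZMod.ringChar_zmod_n]; exact hp)
  have hn0 : n ≠ 0 := by
    rintro rfl
    simp at hn
  let r0 : Fin N := ⟨0, hN⟩
  have h1 : 2 ^ s * (Hs p s N).card =
      ((Finset.univ : Finset (Fin s → Bool)) ×ˢ Hs p s N).card := by
    rw [Finset.card_product]
    simp
  rw [h1, ← Finset.card_univ]
  let f : (Fin s → Bool) × Gm p s N → Gm p s N :=
    fun q v r => if r = r0 ∧ q.1 v = true then n * q.2 v r else q.2 v r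
  have hprod : ∀ q : (Fin s → Bool) × Gm p s N, q.2 ∈ Hs p s N → ∀ v,
      ∏ r, quadraticChar (ZMod p) (f q v r) = if q.1 v = true then -1 else 1 := by
    intro q hq v
    have hq2 := (Finset.mem_filter.1 hq).2.2 v
    rw [← Finset.mul_prod_erase _ _ (Finset.mem_univ r0)] at hq2 ⊢
    have e1 : ∏ r ∈ Finset.univ.erase r0, quadraticChar (ZMod p) (f q v r) =
        ∏ r ∈ Finset.univ.erase r0, quadraticChar (ZMod p) (q.2 v r) := by
      refine Finset.prod_congr rfl fun r hr => ?_
      have : r ≠ r0 := Finset.ne_of_mem_erase hr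
      simp [f, this]
    rw [e1]
    by_cases hb : q.1 v = true
    · have e2 : f q v r0 = n * q.2 v r0 := by simp [f, hb]
      rw [e2, map_mul, hn, if_pos hb, mul_assoc, hq2]
      norm_num
    · have e2 : f q v r0 = q.2 v r0 := by simp [f, hb]
      rw [e2, if_neg hb, hq2]
  refine Finset.card_le_card_of_injOn f (fun _ _ => Finset.mem_coe.2 (Finset.mem_univ _)) ?_
  intro q hq q' hq' hqq
  have hq1 := (Finset.mem_product.1 (Finset.mem_coe.1 hq)).2
  have hq1' := (Finset.mem_product.1 (Finset.mem_coe.1 hq')).2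
  have hσ : q.1 = q'.1 := by
    funext v
    have a1 := hprod q hq1 v
    have a2 := hprod q' hq1' v
    rw [hqq, a2] at a1
    by_cases b1 : q.1 v = true
    · by_cases b2 : q'.1 v = true
      · rw [b1, b2]
      · rw [if_pos b1, if_neg b2] at a1
        norm_num at a1
    · by_cases b2 : q'.1 v = true
      · rw [if_neg b1, if_pos b2] at a1
        norm_num at a1
      · rw [Bool.not_eq_true] at b1 b2
        rw [b1, b2]
  refine Prod.ext hσ ?_
  funext v r
  have a1 := congrFun (congrFun hqq v) r
  simp only [f] at a1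
  rw [← hσ] at a1
  split_ifs at a1 with hc
  · exact mul_left_cancel₀ hn0 a1
  · exact a1

lemma card_coord (z : Gm p s N) (v : Fin s) (r : Fin N) :
    p * (Finset.univ.filter fun z' : Gm p s N => z' v r = z v r).card ≤
      Fintype.card (Gm p s N) := by
  classical
  have h1 : p * (Finset.univ.filter fun z' : Gm p s N => z' v r = z v r).card =
      ((Finset.univ : Finset (ZMod p)) ×ˢ
        (Finset.univ.filter fun z' : Gm p s N => z' v r = z v r)).card := by
    rw [Finset.card_product, Finset.card_univ, ZMod.card]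
  rw [h1, ← Finset.card_univ]
  refine Finset.card_le_card_of_injOn
    (fun q => Function.update q.2 v (Function.update (q.2 v) r q.1))
    (fun _ _ => Finset.mem_coe.2 (Finset.mem_univ _)) ?_
  intro q hq q' hq' hqq
  have hq1 := (Finset.mem_filter.1 (Finset.mem_product.1 (Finset.mem_coe.1 hq)).2).2
  have hq1' := (Finset.mem_filter.1 (Finset.mem_product.1 (Finset.mem_coe.1 hq')).2).2
  simp only at hqq
  have hy : q.1 = q'.1 := by
    have a1 := congrFun (congrFun hqq v) r
    simpa using a1
  refine Prod.ext hy ?_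
  funext w t
  have a1 := congrFun (congrFun hqq w) t
  by_cases hw : w = v
  · subst hw
    by_cases ht : t = r
    · subst ht
      rw [hq1, hq1']
    · simpa [Function.update_of_ne ht] using a1
  · simpa [Function.update_of_ne hw] using a1

lemma card_some (z : Gm p s N) :
    p * (Finset.univ.filter fun z' : Gm p s N => ∃ v r, z' v r = z v r).card ≤
      s * N * Fintype.card (Gm p s N) := by
  classical
  have h1 : (Finset.univ.filter fun z' : Gm p s N => ∃ v r, z' v r = z v r) ⊆
      (Finset.univ : Finset (Fin s × Fin N)).biUnion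
        (fun q => Finset.univ.filter fun z' : Gm p s N => z' q.1 q.2 = z q.1 q.2) := by
    intro z' hz'
    obtain ⟨v, r, h⟩ := (Finset.mem_filter.1 hz').2
    exact Finset.mem_biUnion.2 ⟨(v, r), Finset.mem_univ _, by simpa using h⟩
  calc p * (Finset.univ.filter fun z' : Gm p s N => ∃ v r, z' v r = z v r).card
      ≤ p * ∑ q : Fin s × Fin N,
          (Finset.univ.filter fun z' : Gm p s N => z' q.1 q.2 = z q.1 q.2).card :=
        Nat.mul_le_mul_left _ ((Finset.card_le_card h1).trans Finset.card_biUnion_le)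
    _ = ∑ q : Fin s × Fin N,
          p * (Finset.univ.filter fun z' : Gm p s N => z' q.1 q.2 = z q.1 q.2).card := by
        rw [Finset.mul_sum]
    _ ≤ ∑ _q : Fin s × Fin N, Fintype.card (Gm p s N) :=
        Finset.sum_le_sum fun q _ => card_coord z q.1 q.2
    _ = s * N * Fintype.card (Gm p s N) := by
        rw [Finset.sum_const, Finset.card_univ, Fintype.card_prod, Fintype.card_fin,
          Fintype.card_fin, smul_eq_mul]

end count

lemma exists_surj {B' : Type} [Fintype B'] (s : ℕ) (q : B' → Prop) [DecidablePred q]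
    (h : 2 ^ s ≤ (Finset.univ.filter q).card) :
    ∃ f : B' → Fin s → Bool, ∀ σ, ∃ β, q β ∧ f β = σ := by
  classical
  have h1 : Fintype.card (Fin s → Bool) ≤ Fintype.card {β // q β} := by
    rw [Fintype.card_subtype]
    simpa using h
  obtain ⟨g⟩ := Function.Embedding.nonempty_of_card_le h1
  refine ⟨fun β => if hb : q β then Function.invFun g ⟨β, hb⟩ else fun _ => true, fun σ => ?_⟩
  refine ⟨(g σ).1, (g σ).2, ?_⟩
  simp only
  rw [dif_pos (g σ).2]
  exact Function.leftInverse_invFun g.injective σ

/-- The blocks. -/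
def blk {J B' : Type} {p s N : ℕ} [Fact p.Prime] (S : B' → Finset J)
    (cc : B' → J → Gm p s N) :
    (B' × Gm p s N × Gm p s N) ⊕ ((J × Gm p s N) × (J × Gm p s N)) → J × Gm p s N → Prop
  | Sum.inl f, v => f.2.2 ∈ Hs p s N ∧ v.1 ∈ S f.1 ∧ v.2 = f.2.1 + f.2.2 * cc f.1 v.1
  | Sum.inr f, v => (∃ w r, f.1.2 w r = f.2.2 w r) ∧ (v = f.1 ∨ v = f.2)

section blocks

open Classical

variable {J B' : Type} [Fintype J] [Fintype B'] {p s N : ℕ} [Fact p.Prime] (S : B' → Finset J)
  (cc : B' → J → Gm p s N)

lemma blk_card (k : ℕ) (hk : 2 ≤ k) (hS : ∀ b, (S b).card ≤ k)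
    (f : (B' × Gm p s N × Gm p s N) ⊕ ((J × Gm p s N) × (J × Gm p s N))) :
    (Finset.univ.filter fun v => blk S cc f v).card ≤ k := by
  rcases f with f | f
  · refine le_trans ?_ (hS f.1)
    refine Finset.card_le_card_of_injOn Prod.fst ?_ ?_
    · intro v hv
      exact Finset.mem_coe.2 (Finset.mem_filter.1 (Finset.mem_coe.1 hv)).2.2.1
    · intro v hv v' hv' h
      have h1 := (Finset.mem_filter.1 (Finset.mem_coe.1 hv)).2.2.2
      have h2 := (Finset.mem_filter.1 (Finset.mem_coe.1 hv')).2.2.2
      refine Prod.ext h ?_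
      rw [h1, h2, h]
  · refine le_trans ?_ (hk.trans' (Finset.card_le_two (a := f.1) (b := f.2)))
    refine Finset.card_le_card fun v hv => ?_
    have := (Finset.mem_filter.1 hv).2.2
    simpa using this

lemma blk_deg (i : J) (z : Gm p s N) :
    (Finset.univ.filter fun f => blk S cc f (i, z)).card ≤
      (Finset.univ.filter fun b => i ∈ S b).card * (Hs p s N).card +
        2 * (Fintype.card J *
          (Finset.univ.filter fun z' : Gm p s N => ∃ v r, z' v r = z v r).card) := by
  rw [Finset.card_filter, Fintype.sum_sum_type, ← Finset.card_filter, ← Finset.card_filter]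
  refine add_le_add ?_ ?_
  · rw [← Finset.card_product]
    refine Finset.card_le_card_of_injOn (fun f => (f.1, f.2.2)) ?_ ?_
    · intro f hf
      have h := (Finset.mem_filter.1 (Finset.mem_coe.1 hf)).2
      exact Finset.mem_coe.2 (Finset.mem_product.2
        ⟨Finset.mem_filter.2 ⟨Finset.mem_univ _, h.2.1⟩, h.1⟩)
    · intro f hf f' hf' h
      have h1 := (Finset.mem_filter.1 (Finset.mem_coe.1 hf)).2.2.2
      have h2 := (Finset.mem_filter.1 (Finset.mem_coe.1 hf')).2.2.2
      obtain ⟨b, x, y⟩ := f
      obtain ⟨b', x', y'⟩ := f'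
      simp only [Prod.mk.injEq] at h
      obtain ⟨rfl, rfl⟩ := h
      simp only at h1 h2
      rw [h1] at h2
      rw [add_right_cancel h2]
  · set T : Finset (J × Gm p s N) := (Finset.univ : Finset J) ×ˢ
      (Finset.univ.filter fun z' : Gm p s N => ∃ v r, z' v r = z v r) with hT
    have hTc : T.card = Fintype.card J *
        (Finset.univ.filter fun z' : Gm p s N => ∃ v r, z' v r = z v r).card := by
      rw [hT, Finset.card_product, Finset.card_univ]
    rw [← hTc, two_mul]
    have hsub : (Finset.univ.filter fun f : (J × Gm p s N) × (J × Gm p s N) =>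
        blk S cc (Sum.inr f) (i, z)) ⊆
        T.image (fun v => ((i, z), v)) ∪ T.image (fun v => (v, (i, z))) := by
      intro f hf
      obtain ⟨⟨w, r, h1⟩, h2⟩ := (Finset.mem_filter.1 hf).2
      rw [Finset.mem_union, Finset.mem_image, Finset.mem_image]
      rcases h2 with h2 | h2
      · left
        refine ⟨f.2, ?_, ?_⟩
        · refine Finset.mem_product.2 ⟨Finset.mem_univ _, Finset.mem_filter.2
            ⟨Finset.mem_univ _, w, r, ?_⟩⟩
          rw [← h1, ← h2]
        · rw [h2]
      · right
        refine ⟨f.1, ?_, ?_⟩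
        · refine Finset.mem_product.2 ⟨Finset.mem_univ _, Finset.mem_filter.2
            ⟨Finset.mem_univ _, w, r, ?_⟩⟩
          rw [h1, ← h2]
        · rw [h2]
    exact (Finset.card_le_card hsub).trans ((Finset.card_union_le _ _).trans
      (add_le_add Finset.card_image_le Finset.card_image_le))

lemma blk_cover (i j : J)
    (hc : ∀ σ : Fin s → Bool, ∃ b, i ∈ S b ∧ j ∈ S b ∧
      (∀ v r, cc b i v r - cc b j v r ≠ 0) ∧
      ∀ v, ∏ r, quadraticChar (ZMod p) (cc b i v r - cc b j v r) = if σ v then -1 else 1)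
    (z z' : Gm p s N) : ∃ f, blk S cc f (i, z) ∧ blk S cc f (j, z') := by
  by_cases h0 : ∃ v r, z v r = z' v r
  · exact ⟨Sum.inr ((i, z), (j, z')), ⟨h0, Or.inl rfl⟩, ⟨h0, Or.inr rfl⟩⟩
  push Not at h0
  have hd : ∀ v r, z v r - z' v r ≠ 0 := fun v r => sub_ne_zero.2 (h0 v r)
  have hχ : ∀ x : ZMod p, x ≠ 0 → quadraticChar (ZMod p) x = 1 ∨ quadraticChar (ZMod p) x = -1 :=
    fun x hx => quadraticChar_dichotomy hx
  have hprod : ∀ v, ∏ r, quadraticChar (ZMod p) (z v r - z' v r) = 1 ∨
      ∏ r, quadraticChar (ZMod p) (z v r - z' v r) = -1 := by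
    intro v
    refine Finset.prod_induction _ (fun x : ℤ => x = 1 ∨ x = -1) ?_ (Or.inl rfl)
      fun r _ => hχ _ (hd v r)
    rintro a b (rfl | rfl) (rfl | rfl) <;> simp
  obtain ⟨b, hi, hj, hb0, hb⟩ := hc
    (fun v => decide (∏ r, quadraticChar (ZMod p) (z v r - z' v r) = -1))
  refine ⟨Sum.inl (b, z - (fun v r => (z v r - z' v r) / (cc b i v r - cc b j v r)) * cc b i,
    fun v r => (z v r - z' v r) / (cc b i v r - cc b j v r)), ?_, ?_⟩
  · refine ⟨?_, hi, ?_⟩
    · refine Finset.mem_filter.2 ⟨Finset.mem_univ _, fun v r => div_ne_zero (hd v r) (hb0 v r),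
        fun v => ?_⟩
      have e1 : ∀ r, quadraticChar (ZMod p) ((z v r - z' v r) / (cc b i v r - cc b j v r)) =
          quadraticChar (ZMod p) (z v r - z' v r) *
            quadraticChar (ZMod p) (cc b i v r - cc b j v r) := by
        intro r
        have h2 : quadraticChar (ZMod p) ((z v r - z' v r) / (cc b i v r - cc b j v r)) *
            quadraticChar (ZMod p) (cc b i v r - cc b j v r) =
            quadraticChar (ZMod p) (z v r - z' v r) := by
          rw [← map_mul, div_mul_cancel₀ _ (hb0 v r)]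
        have h3 : quadraticChar (ZMod p) (cc b i v r - cc b j v r) *
            quadraticChar (ZMod p) (cc b i v r - cc b j v r) = 1 := by
          rcases hχ _ (hb0 v r) with h | h <;> rw [h] <;> norm_num
        rw [← h2, mul_assoc, h3, mul_one]
      simp only [e1]
      rw [Finset.prod_mul_distrib, hb v]
      rcases hprod v with h | h
      · rw [h]; norm_num
      · rw [h]; norm_num
    · simp only
      rw [sub_add_cancel]
  · refine ⟨?_, hj, ?_⟩
    · refine Finset.mem_filter.2 ⟨Finset.mem_univ _, fun v r => div_ne_zero (hd v r) (hb0 v r),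
        fun v => ?_⟩
      have e1 : ∀ r, quadraticChar (ZMod p) ((z v r - z' v r) / (cc b i v r - cc b j v r)) =
          quadraticChar (ZMod p) (z v r - z' v r) *
            quadraticChar (ZMod p) (cc b i v r - cc b j v r) := by
        intro r
        have h2 : quadraticChar (ZMod p) ((z v r - z' v r) / (cc b i v r - cc b j v r)) *
            quadraticChar (ZMod p) (cc b i v r - cc b j v r) =
            quadraticChar (ZMod p) (z v r - z' v r) := by
          rw [← map_mul, div_mul_cancel₀ _ (hb0 v r)]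
        have h3 : quadraticChar (ZMod p) (cc b i v r - cc b j v r) *
            quadraticChar (ZMod p) (cc b i v r - cc b j v r) = 1 := by
          rcases hχ _ (hb0 v r) with h | h <;> rw [h] <;> norm_num
        rw [← h2, mul_assoc, h3, mul_one]
      simp only [e1]
      rw [Finset.prod_mul_distrib, hb v]
      rcases hprod v with h | h
      · rw [h]; norm_num
      · rw [h]; norm_num
    · simp only
      funext v r
      have h4 : (z v r - z' v r) / (cc b i v r - cc b j v r) * (cc b i v r - cc b j v r) =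
          z v r - z' v r := div_mul_cancel₀ _ (hb0 v r)
      simp only [Pi.add_apply, Pi.sub_apply, Pi.mul_apply]
      linear_combination h4

end blocks

open Classical in
theorem spread_of_pattern (pattern : Pattern) (k : ℕ) (hk : 2 ≤ k) {J B : Type} [Fintype J]
    [Fintype B]
    (S : B → Finset J) (hS : ∀ b, (S b).card ≤ k) (E : J → J → Prop) (hE : ∀ i j, E i j → i ≠ j)
    (lam : ℕ) (hlam : 0 < lam)
    (hlam2 : ∀ i j, E i j → lam ≤ (Finset.univ.filter fun b => i ∈ S b ∧ j ∈ S b).card)
    (ε : ℝ) (hε : 0 < ε) :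
    ∃ (G F : Type) (_ : Fintype G) (_ : Nonempty G) (_ : Fintype F) (blk : F → J × G → Prop),
      (∀ f, (Finset.univ.filter fun v => blk f v).card ≤ k) ∧
      (∀ (i : J) (z : G), ((Finset.univ.filter fun f => blk f (i, z)).card : ℝ) ≤
        (((Finset.univ.filter fun b => i ∈ S b).card : ℝ) / lam + ε) * Fintype.card G) ∧
      (∀ i j, E i j → ∀ z z' : G, ∃ f, blk f (i, z) ∧ blk f (j, z')) := by
  -- the trivial case
  by_cases hJ : ∀ i j : J, i = j
  · refine ⟨Unit, Empty, inferInstance, inferInstance, inferInstance, fun f => f.elim, ?_, ?_, ?_⟩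
    · intro f
      exact f.elim
    · intro i z
      have h0 : (Finset.univ.filter fun f : Empty => (fun f => f.elim : Empty → J × Unit → Prop) f
          (i, z)).card = 0 := by
        rw [Finset.card_eq_zero]
        ext f
        exact f.elim
      have h1 : (0 : ℝ) ≤ ((Finset.univ.filter fun b => i ∈ S b).card : ℝ) / lam := by positivity
      rw [h0]
      simp only [Nat.cast_zero, Fintype.card_unit, Nat.cast_one, mul_one]
      linarith
    · intro i j hij
      exact absurd (hJ i j) (hE i j hij)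
  push Not at hJ
  obtain ⟨i₀, j₀, hij₀⟩ := hJ
  obtain ⟨N, p0, hpat⟩ := pattern J
  -- parameters
  obtain ⟨s, hs⟩ : ∃ s : ℕ, (Fintype.card B : ℝ) * (2 / ε) < 2 ^ s :=
    pow_unbounded_of_one_lt _ (by norm_num)
  obtain ⟨p1, hp1⟩ := exists_nat_gt (4 * (Fintype.card J : ℝ) * (s * N) / ε)
  obtain ⟨p, hpp, hpgt, hpmod⟩ := Nat.exists_prime_gt_modEq_one (k := 4)
    (p0 + p1 + 2) (by norm_num)
  haveI : Fact p.Prime := ⟨hpp⟩
  have hp4 : p % 4 = 1 := hpmod
  have hp2 : p ≠ 2 := by omega
  have hp := hpat p (by omega) hp4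
  have hN : 0 < N := by
    rcases Nat.eq_zero_or_pos N with h | h
    · subst h
      obtain ⟨c, _, hc⟩ := hp (fun _ _ => -1) (fun _ _ => rfl) (fun _ _ => Or.inr rfl)
      have := hc i₀ j₀ hij₀
      simp at this
    · exact h
  set m : ℕ := 2 ^ s / lam + 1 with hm
  have hm1 : 2 ^ s ≤ lam * m := by
    have h1 := Nat.div_add_mod (2 ^ s) lam
    have h2 := Nat.mod_lt (2 ^ s) hlam
    rw [hm, mul_add, mul_one]
    omega
  -- the pair functions
  have hex : ∀ z : Sym2 J, ∃ f : B × Fin m → Fin s → Bool,
      (2 ^ s ≤ (Finset.univ.filter fun β : B × Fin m => ∀ i ∈ z, i ∈ S β.1).card →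
        ∀ σ, ∃ β, (∀ i ∈ z, i ∈ S β.1) ∧ f β = σ) := by
    intro z
    by_cases h : 2 ^ s ≤ (Finset.univ.filter fun β : B × Fin m => ∀ i ∈ z, i ∈ S β.1).card
    · obtain ⟨f, hf⟩ := exists_surj s (fun β : B × Fin m => ∀ i ∈ z, i ∈ S β.1) h
      exact ⟨f, fun _ => hf⟩
    · exact ⟨fun _ _ => true, fun h' => absurd h' h⟩
  choose t ht using hex
  have hce : ∀ (β : B × Fin m) (v : Fin s), ∃ c : J → Fin N → ZMod p,
      (∀ i j r, i ≠ j → c i r ≠ c j r) ∧
      ∀ i j, i ≠ j → ∏ r, quadraticChar (ZMod p) (c i r - c j r) =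
        if t s(i, j) β v then -1 else 1 := by
    intro β v
    refine hp (fun i j => if t s(i, j) β v then -1 else 1) ?_ ?_
    · intro i j
      rw [Sym2.eq_swap]
    · intro i j
      split_ifs
      · exact Or.inr rfl
      · exact Or.inl rfl
  choose c hc1 hc2 using hce
  let S' : B × Fin m → Finset J := fun β => S β.1
  let cc : B × Fin m → J → Gm p s N := fun β i v r => c β v i r
  refine ⟨Gm p s N, ((B × Fin m) × Gm p s N × Gm p s N) ⊕ ((J × Gm p s N) × (J × Gm p s N)),
    inferInstance, inferInstance, inferInstance, blk S' cc, ?_, ?_, ?_⟩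
  · exact blk_card S' cc k hk (fun b => hS b.1)
  · intro i z
    have hcast : (0 : ℝ) < Fintype.card (Gm p s N) := by
      have : 0 < Fintype.card (Gm p s N) := Fintype.card_pos
      exact_mod_cast this
    have d1 := blk_deg S' cc i z
    have d2 : (Finset.univ.filter fun b : B × Fin m => i ∈ S' b).card =
        (Finset.univ.filter fun b => i ∈ S b).card * m := by
      have : (Finset.univ.filter fun b : B × Fin m => i ∈ S' b) =
          (Finset.univ.filter fun b => i ∈ S b) ×ˢ (Finset.univ : Finset (Fin m)) := by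
        ext b
        simp [S']
      rw [this, Finset.card_product, Finset.card_univ, Fintype.card_fin]
    rw [d2] at d1
    have d3 := card_Hs (p := p) (s := s) hN hp2
    have d4 := card_some z
    set g : ℝ := (Fintype.card (Gm p s N) : ℝ) with hg
    set r : ℝ := ((Finset.univ.filter fun b => i ∈ S b).card : ℝ) with hr
    set h : ℝ := ((Hs p s N).card : ℝ) with hh
    set q : ℝ := ((Finset.univ.filter fun z' : Gm p s N => ∃ v r, z' v r = z v r).card : ℝ) with hq
    have d1' : ((Finset.univ.filter fun f => blk S' cc f (i, z)).card : ℝ) ≤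
        r * m * h + 2 * ((Fintype.card J : ℝ) * q) := by
      rw [hr, hh, hq]
      exact_mod_cast d1
    have d3' : 2 ^ s * h ≤ g := by
      rw [hh, hg]
      exact_mod_cast d3
    have d4' : (p : ℝ) * q ≤ s * N * g := by
      rw [hq, hg]
      exact_mod_cast d4
    have hp0 : (0 : ℝ) < p := by exact_mod_cast hpp.pos
    have h2s : (0 : ℝ) < 2 ^ s := by positivity
    have hlam' : (0 : ℝ) < lam := by exact_mod_cast hlam
    have hr0 : 0 ≤ r := Nat.cast_nonneg _
    have hrB : r ≤ Fintype.card B := by
      rw [hr]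
      exact_mod_cast Finset.card_le_univ _
    have hm' : (m : ℝ) ≤ 2 ^ s / lam + 1 := by
      rw [hm]
      push_cast
      have := Nat.cast_div_le (α := ℝ) (m := 2 ^ s) (n := lam)
      push_cast at this
      linarith
    have e1 : r * m * h ≤ r * (2 ^ s / lam + 1) * (g / 2 ^ s) := by
      have h1 : h ≤ g / 2 ^ s := by
        rw [le_div_iff₀ h2s]
        linarith
      exact mul_le_mul (mul_le_mul_of_nonneg_left hm' hr0) h1 (Nat.cast_nonneg _) (by positivity)
    have e2 : r * (2 ^ s / lam + 1) * (g / 2 ^ s) = (r / lam + r / 2 ^ s) * g := by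
      field_simp
    have e3 : r / 2 ^ s ≤ ε / 2 := by
      rw [div_le_iff₀ h2s]
      have h1 : (Fintype.card B : ℝ) ≤ ε / 2 * 2 ^ s := by
        have h2 : (Fintype.card B : ℝ) * (2 / ε) * (ε / 2) ≤ 2 ^ s * (ε / 2) :=
          mul_le_mul_of_nonneg_right hs.le (by positivity)
        have h3 : (Fintype.card B : ℝ) * (2 / ε) * (ε / 2) = Fintype.card B := by
          field_simp
        linarith
      linarith
    have e4 : 2 * ((Fintype.card J : ℝ) * q) ≤ ε / 2 * g := by
      have h1 : q ≤ s * N * g / p := by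
        rw [le_div_iff₀ hp0]
        linarith
      have h2 : 4 * (Fintype.card J : ℝ) * (s * N) ≤ ε * p := by
        have h3 : (p1 : ℝ) ≤ p := by
          have : p1 ≤ p := by omega
          exact_mod_cast this
        have h4 := (div_lt_iff₀ hε).1 hp1
        nlinarith
      calc 2 * ((Fintype.card J : ℝ) * q) ≤ 2 * ((Fintype.card J : ℝ) * (s * N * g / p)) := by
            gcongr
        _ = (4 * (Fintype.card J : ℝ) * (s * N)) * (g / (2 * p)) := by
            field_simp
            ring
        _ ≤ (ε * p) * (g / (2 * p)) :=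
            mul_le_mul_of_nonneg_right h2 (by positivity)
        _ = ε / 2 * g := by
            field_simp
    have e5 : (r / lam + r / 2 ^ s) * g ≤ (r / lam + ε / 2) * g :=
      mul_le_mul_of_nonneg_right (by linarith) hcast.le
    have e6 : (r / lam + ε) * g = (r / lam + ε / 2) * g + ε / 2 * g := by ring
    rw [e6]
    linarith
  · intro i j hij z z'
    have hne := hE i j hij
    refine blk_cover S' cc i j (fun σ => ?_) z z'
    have hcard : 2 ^ s ≤ (Finset.univ.filter fun β : B × Fin m => ∀ l ∈ s(i, j), l ∈ S β.1).card := by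
      have h1 : (Finset.univ.filter fun β : B × Fin m => ∀ l ∈ s(i, j), l ∈ S β.1) =
          (Finset.univ.filter fun b => i ∈ S b ∧ j ∈ S b) ×ˢ (Finset.univ : Finset (Fin m)) := by
        ext b
        simp
      rw [h1, Finset.card_product, Finset.card_univ, Fintype.card_fin]
      exact hm1.trans (Nat.mul_le_mul_right m (hlam2 i j hij))
    obtain ⟨β, hβ1, hβ2⟩ := ht s(i, j) hcard σ
    refine ⟨β, hβ1 i (Sym2.mem_mk_left i j), hβ1 j (Sym2.mem_mk_right i j), ?_, ?_⟩
    · intro v r
      exact sub_ne_zero.2 (hc1 β v i j r hne)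
    · intro v
      have := hc2 β v i j hne
      rw [hβ2] at this
      exact this

end Pool.Agent.Helper57.SL
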