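import Mathlib

/-!
# MP_f97382, sharp lower bound, rows S3 (thinning) and the weights of row S4
-/

set_option autoImplicit false

namespace Pool.Agent.Helper57.SL

open Finset

section basic

variable {I : Type} [DecidableEq I]

/-- The probability of `R` for the product measure on the subsets of `P`. -/
def pr (P : Finset I) (a : I → ℝ) (R : Finset I) : ℝ :=
  (∏ i ∈ R, a i) * ∏ i ∈ P \ R, (1 - a i)

/-- The distribution of `R` to the sets of size at most `k`. -/
noncomputable def gg (k : ℕ) (R S : Finset I) : ℝ :=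
  if k ≤ R.card then
    (if S ⊆ R ∧ S.card = k then 1 / (((R.card - 2).choose (k - 2) : ℕ) : ℝ) else 0)
  else (if S = R then 1 else 0)

lemma sum_sup (P Z : Finset I) (hZ : Z ⊆ P) (f g : I → ℝ) :
    ∑ R ∈ P.powerset, (if Z ⊆ R then (∏ i ∈ R, f i) * ∏ i ∈ P \ R, g i else 0) =
      (∏ i ∈ Z, f i) * ∏ i ∈ P \ Z, (f i + g i) := by
  have h := Finset.prod_add f (fun i => if i ∈ Z then 0 else g i) P
  have h1 : ∏ i ∈ P, (f i + (if i ∈ Z then 0 else g i)) =
      (∏ i ∈ Z, f i) * ∏ i ∈ P \ Z, (f i + g i) := by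
    rw [← Finset.prod_sdiff hZ, mul_comm]
    congr 1
    · exact Finset.prod_congr rfl fun i hi => by simp [hi]
    · exact Finset.prod_congr rfl fun i hi => by simp [(Finset.mem_sdiff.1 hi).2]
  rw [← h1, h]
  refine Finset.sum_congr rfl fun R hR => ?_
  split_ifs with hc
  · congr 1
    refine Finset.prod_congr rfl fun i hi => ?_
    rw [if_neg]
    intro hiZ
    exact (Finset.mem_sdiff.1 hi).2 (hc hiZ)
  · obtain ⟨i, hiZ, hiR⟩ := Finset.not_subset.1 hc
    rw [Finset.prod_eq_zero (i := i) (Finset.mem_sdiff.2 ⟨hZ hiZ, hiR⟩) (by simp [hiZ]), mul_zero]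

lemma card_between (R Z : Finset I) (hZ : Z ⊆ R) (k : ℕ) (hk : Z.card ≤ k) :
    ((R.powersetCard k).filter (fun S => Z ⊆ S)).card =
      (R.card - Z.card).choose (k - Z.card) := by
  rw [← Finset.card_sdiff_of_subset hZ, ← Finset.card_powersetCard]
  refine Finset.card_nbij' (fun S => S \ Z) (fun S => S ∪ Z) ?_ ?_ ?_ ?_
  · intro S hS
    simp only [Finset.coe_filter, Finset.mem_powersetCard, Set.mem_ofPred_eq] at hS
    simp only [Finset.mem_coe, Finset.mem_powersetCard]
    refine ⟨Finset.sdiff_subset_sdiff hS.1.1 (Finset.Subset.refl _), ?_⟩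
    rw [Finset.card_sdiff_of_subset hS.2, hS.1.2]
  · intro S hS
    simp only [Finset.mem_coe, Finset.mem_powersetCard] at hS
    simp only [Finset.coe_filter, Finset.mem_powersetCard, Set.mem_ofPred_eq]
    have hd : Disjoint S Z := by
      rw [Finset.disjoint_left]
      intro x hx hz
      exact (Finset.mem_sdiff.1 (hS.1 hx)).2 hz
    refine ⟨⟨Finset.union_subset (hS.1.trans Finset.sdiff_subset) hZ, ?_⟩,
      Finset.subset_union_right⟩
    rw [Finset.card_union_of_disjoint hd, hS.2]
    omega
  · intro S hS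
    simp only [Finset.coe_filter, Finset.mem_powersetCard, Set.mem_ofPred_eq] at hS
    exact Finset.sdiff_union_of_subset hS.2
  · intro S hS
    simp only [Finset.mem_coe, Finset.mem_powersetCard] at hS
    have hd : Disjoint S Z := by
      rw [Finset.disjoint_left]
      intro x hx hz
      exact (Finset.mem_sdiff.1 (hS.1 hx)).2 hz
    simp only
    rw [Finset.union_sdiff_right]
    exact Finset.sdiff_eq_self_of_disjoint hd

lemma gg_nonneg (k : ℕ) (R S : Finset I) : 0 ≤ gg k R S := by
  unfold gg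
  split_ifs <;> positivity

lemma gg_big (k : ℕ) (R S : Finset I) (h : k < S.card) : gg k R S = 0 := by
  unfold gg
  split_ifs with h1 h2 h3
  · omega
  · rfl
  · subst h3; omega
  · rfl

lemma gg_not_sub (k : ℕ) (R S : Finset I) (h : ¬ S ⊆ R) : gg k R S = 0 := by
  unfold gg
  split_ifs with h1 h2 h3
  · exact absurd h2.1 h
  · rfl
  · exact absurd (h3 ▸ Finset.Subset.refl _) h
  · rfl

variable [Fintype I]

/-- The sum of `gg` over the sets containing `Z`. -/
lemma gg_sum (k : ℕ) (R Z : Finset I) :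
    ∑ S ∈ Finset.univ.filter (fun S : Finset I => Z ⊆ S), gg k R S =
      if Z ⊆ R then (if k ≤ R.card then
        ((((R.powersetCard k).filter (fun S => Z ⊆ S)).card : ℕ) : ℝ) /
          (((R.card - 2).choose (k - 2) : ℕ) : ℝ) else 1) else 0 := by
  by_cases hZ : Z ⊆ R
  · rw [if_pos hZ]
    by_cases hk : k ≤ R.card
    · rw [if_pos hk]
      have h1 : ∀ S : Finset I, gg k R S =
          if S ∈ R.powersetCard k then 1 / (((R.card - 2).choose (k - 2) : ℕ) : ℝ) else 0 := by
        intro S
        unfold gg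
        rw [if_pos hk]
        simp only [Finset.mem_powersetCard]
      simp only [h1]
      rw [← Finset.sum_filter, Finset.filter_filter, Finset.sum_const, nsmul_eq_mul]
      have h2 : (Finset.univ.filter (fun S : Finset I => Z ⊆ S ∧ S ∈ R.powersetCard k)) =
          (R.powersetCard k).filter (fun S => Z ⊆ S) := by
        ext S
        simp only [Finset.mem_filter, Finset.mem_univ, true_and]
        tauto
      rw [h2, mul_one_div]
    · rw [if_neg hk]
      have h1 : ∀ S : Finset I, gg k R S = if S = R then 1 else 0 := by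
        intro S
        unfold gg
        rw [if_neg hk]
      simp only [h1]
      rw [Finset.sum_ite_eq' _ R]
      simp [hZ]
  · rw [if_neg hZ]
    refine Finset.sum_eq_zero fun S hS => gg_not_sub k R S ?_
    intro h
    exact hZ ((Finset.mem_filter.1 hS).2.trans h)

lemma gg_cov (k : ℕ) (hk : 2 ≤ k) (R : Finset I) (i j : I) (hij : i ≠ j) :
    ∑ S ∈ Finset.univ.filter (fun S : Finset I => i ∈ S ∧ j ∈ S), gg k R S =
      if ({i, j} : Finset I) ⊆ R then 1 else 0 := by
  have h0 : (Finset.univ.filter (fun S : Finset I => i ∈ S ∧ j ∈ S)) =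
      Finset.univ.filter (fun S : Finset I => ({i, j} : Finset I) ⊆ S) := by
    ext S
    simp [Finset.insert_subset_iff]
  rw [h0, gg_sum]
  have hc : ({i, j} : Finset I).card = 2 := Finset.card_pair hij
  split_ifs with h1 h2
  · rw [card_between R _ h1 k (by omega), hc]
    have hR : k - 2 ≤ R.card - 2 := by omega
    have : ((R.card - 2).choose (k - 2) : ℝ) ≠ 0 := by
      have := Nat.choose_pos hR
      positivity
    exact div_self this
  · rfl
  · rfl

lemma gg_deg (k : ℕ) (hk : 2 ≤ k) (R : Finset I) (i : I) :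
    ∑ S ∈ Finset.univ.filter (fun S : Finset I => i ∈ S), gg k R S ≤
      if ({i} : Finset I) ⊆ R then ((R.card : ℝ) - 1) / (k - 1) + 2 ^ k * (1 / 2) ^ R.card
        else 0 := by
  have h0 : (Finset.univ.filter (fun S : Finset I => i ∈ S)) =
      Finset.univ.filter (fun S : Finset I => ({i} : Finset I) ⊆ S) := by
    ext S
    simp
  rw [h0, gg_sum]
  have hc : ({i} : Finset I).card = 1 := Finset.card_singleton i
  have hk1 : (0 : ℝ) < (k : ℝ) - 1 := by
    have : (2 : ℝ) ≤ k := by exact_mod_cast hk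
    linarith
  split_ifs with h1 h2
  · rw [card_between R _ h1 k (by omega), hc]
    have hR : k - 2 ≤ R.card - 2 := by omega
    have hpos : (0 : ℝ) < ((R.card - 2).choose (k - 2) : ℝ) := by
      have := Nat.choose_pos hR
      exact_mod_cast this
    have e1 : (R.card - 1) * (R.card - 2).choose (k - 2) =
        (R.card - 1).choose (k - 1) * (k - 1) := by
      have := Nat.add_one_mul_choose_eq (R.card - 2) (k - 2)
      have r1 : R.card - 2 + 1 = R.card - 1 := by omega
      have r2 : k - 2 + 1 = k - 1 := by omega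
      rw [r1, r2] at this
      exact this
    have e2 : ((R.card : ℝ) - 1) * ((R.card - 2).choose (k - 2) : ℝ) =
        ((R.card - 1).choose (k - 1) : ℝ) * ((k : ℝ) - 1) := by
      have r1 : ((R.card - 1 : ℕ) : ℝ) = (R.card : ℝ) - 1 := by
        rw [Nat.cast_sub (by omega)]; simp
      have r2 : ((k - 1 : ℕ) : ℝ) = (k : ℝ) - 1 := by
        rw [Nat.cast_sub (by omega)]; simp
      rw [← r1, ← r2]
      exact_mod_cast e1
    have e3 : ((R.card - 1).choose (k - 1) : ℝ) / ((R.card - 2).choose (k - 2) : ℝ) =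
        ((R.card : ℝ) - 1) / (k - 1) := by
      rw [div_eq_div_iff hpos.ne' hk1.ne']
      linarith
    rw [e3]
    have : (0 : ℝ) ≤ 2 ^ k * (1 / 2) ^ R.card := by positivity
    linarith
  · have hR1 : 1 ≤ R.card := by
      have := Finset.card_le_card h1
      omega
    have h3 : (0 : ℝ) ≤ ((R.card : ℝ) - 1) / (k - 1) := by
      apply div_nonneg _ hk1.le
      have : (1 : ℝ) ≤ R.card := by exact_mod_cast hR1
      linarith
    have h4 : (1 : ℝ) ≤ 2 ^ k * (1 / 2) ^ R.card := by
      have h5 : (2 : ℝ) ^ k = 2 ^ R.card * 2 ^ (k - R.card) := by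
        rw [← pow_add]; congr 1; omega
      have h6 : (2 : ℝ) ^ R.card * (1 / 2) ^ R.card = 1 := by
        rw [← mul_pow]; norm_num
      have h7 : (1 : ℝ) ≤ 2 ^ (k - R.card) := one_le_pow₀ (by norm_num)
      calc (1 : ℝ) ≤ 2 ^ (k - R.card) := h7
        _ = 2 ^ (k - R.card) * (2 ^ R.card * (1 / 2) ^ R.card) := by rw [h6, mul_one]
        _ = 2 ^ k * (1 / 2) ^ R.card := by rw [h5]; ring
    linarith
  · exact le_rfl

end basic

open Classical in
theorem thin (k : ℕ) (hk : 2 ≤ k) {I : Type} [Fintype I] (P : Finset I) (a : I → ℝ)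
    (ha0 : ∀ i, 0 ≤ a i) (ha1 : ∀ i, a i ≤ 1) :
    ∃ y : Finset I → ℝ, (∀ S, 0 ≤ y S) ∧ (∀ S : Finset I, k < S.card → y S = 0) ∧
      (∀ S : Finset I, ¬ S ⊆ P → y S = 0) ∧
      (∀ i ∈ P, ∀ j ∈ P, i ≠ j →
        a i * a j ≤ ∑ S ∈ Finset.univ.filter (fun S : Finset I => i ∈ S ∧ j ∈ S), y S) ∧
      (∀ i ∈ P, ∑ S ∈ Finset.univ.filter (fun S : Finset I => i ∈ S), y S ≤
        a i * ((∑ j ∈ P.erase i, a j) / (k - 1) + 2 ^ k * ∏ j ∈ P.erase i, (1 - a j / 2))) := by
  have hpr : ∀ R, 0 ≤ pr P a R := fun R =>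
    mul_nonneg (Finset.prod_nonneg fun i _ => ha0 i)
      (Finset.prod_nonneg fun i _ => sub_nonneg.2 (ha1 i))
  have hk1 : (0 : ℝ) < (k : ℝ) - 1 := by
    have : (2 : ℝ) ≤ k := by exact_mod_cast hk
    linarith
  have swap : ∀ q : Finset (Finset I),
      ∑ S ∈ q, ∑ R ∈ P.powerset, pr P a R * gg k R S =
        ∑ R ∈ P.powerset, pr P a R * ∑ S ∈ q, gg k R S := by
    intro q
    rw [Finset.sum_comm]
    refine Finset.sum_congr rfl fun R _ => ?_
    rw [Finset.mul_sum]
  have two : ∀ i ∈ P, ∀ j ∈ P, i ≠ j →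
      ∑ R ∈ P.powerset, (if ({i, j} : Finset I) ⊆ R then pr P a R else 0) = a i * a j := by
    intro i hi j hj hij
    have hs : ({i, j} : Finset I) ⊆ P := by
      rw [Finset.insert_subset_iff, Finset.singleton_subset_iff]
      exact ⟨hi, hj⟩
    have h := sum_sup P {i, j} hs a (fun i => 1 - a i)
    rw [Finset.prod_pair hij] at h
    have h2 : ∏ i ∈ P \ {i, j}, (a i + (1 - a i)) = 1 :=
      Finset.prod_eq_one fun x _ => by ring
    rw [h2, mul_one] at h
    exact h
  have one' : ∀ i ∈ P, ∑ R ∈ P.powerset,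
      (if ({i} : Finset I) ⊆ R then pr P a R * (1 / 2) ^ R.card else 0) =
        a i / 2 * ∏ j ∈ P.erase i, (1 - a j / 2) := by
    intro i hi
    have hs : ({i} : Finset I) ⊆ P := Finset.singleton_subset_iff.2 hi
    have h := sum_sup P {i} hs (fun i => a i / 2) (fun i => 1 - a i)
    rw [Finset.prod_singleton, Finset.sdiff_singleton_eq_erase] at h
    have h2 : ∏ j ∈ P.erase i, (a j / 2 + (1 - a j)) = ∏ j ∈ P.erase i, (1 - a j / 2) :=
      Finset.prod_congr rfl fun x _ => by ring
    rw [h2] at h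
    rw [← h]
    refine Finset.sum_congr rfl fun R _ => ?_
    split_ifs
    · unfold pr
      have h3 : ∏ i ∈ R, a i / 2 = (∏ i ∈ R, a i) * (1 / 2) ^ R.card := by
        rw [← Finset.prod_const, ← Finset.prod_mul_distrib]
        exact Finset.prod_congr rfl fun x _ => by ring
      rw [h3]
      ring
    · rfl
  refine ⟨fun S => ∑ R ∈ P.powerset, pr P a R * gg k R S, ?_, ?_, ?_, ?_, ?_⟩
  · intro S
    exact Finset.sum_nonneg fun R _ => mul_nonneg (hpr R) (gg_nonneg k R S)
  · intro S hS
    exact Finset.sum_eq_zero fun R _ => by rw [gg_big k R S hS, mul_zero]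
  · intro S hS
    refine Finset.sum_eq_zero fun R hR => ?_
    rw [gg_not_sub k R S (fun h => hS (h.trans (Finset.mem_powerset.1 hR))), mul_zero]
  · intro i hi j hj hij
    simp only
    rw [swap, ← two i hi j hj hij]
    refine Finset.sum_le_sum fun R _ => ?_
    rw [gg_cov k hk R i j hij]
    split_ifs <;> simp
  · intro i hi
    simp only
    rw [swap]
    have s1 : ∑ R ∈ P.powerset, pr P a R *
        ∑ S ∈ Finset.univ.filter (fun S : Finset I => i ∈ S), gg k R S ≤
        ∑ R ∈ P.powerset, ((if ({i} : Finset I) ⊆ R then pr P a R * ((R.card : ℝ) - 1) else 0) /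
          (k - 1) + 2 ^ k *
            (if ({i} : Finset I) ⊆ R then pr P a R * (1 / 2) ^ R.card else 0)) := by
      refine Finset.sum_le_sum fun R _ => ?_
      refine (mul_le_mul_of_nonneg_left (gg_deg k hk R i) (hpr R)).trans (le_of_eq ?_)
      split_ifs
      · ring
      · simp
    have s2 : ∑ R ∈ P.powerset,
        (if ({i} : Finset I) ⊆ R then pr P a R * ((R.card : ℝ) - 1) else 0) =
          a i * ∑ j ∈ P.erase i, a j := by
      have t1 : ∀ R ∈ P.powerset,
          (if ({i} : Finset I) ⊆ R then pr P a R * ((R.card : ℝ) - 1) else 0) =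
            ∑ j ∈ P.erase i, (if ({i, j} : Finset I) ⊆ R then pr P a R else 0) := by
        intro R hR
        by_cases hc : ({i} : Finset I) ⊆ R
        · rw [if_pos hc]
          have hiR : i ∈ R := Finset.singleton_subset_iff.1 hc
          have t2 : ∑ j ∈ P.erase i, (if ({i, j} : Finset I) ⊆ R then pr P a R else 0) =
              ∑ j ∈ P.erase i, (if j ∈ R then pr P a R else 0) := by
            refine Finset.sum_congr rfl fun j _ => ?_
            congr 1
            simp [Finset.insert_subset_iff, hiR]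
          rw [t2, ← Finset.sum_filter, Finset.sum_const, nsmul_eq_mul]
          have t3 : (P.erase i).filter (fun j => j ∈ R) = R.erase i := by
            ext j
            simp only [Finset.mem_filter, Finset.mem_erase]
            constructor
            · rintro ⟨⟨h1, _⟩, h2⟩
              exact ⟨h1, h2⟩
            · rintro ⟨h1, h2⟩
              exact ⟨⟨h1, Finset.mem_powerset.1 hR h2⟩, h2⟩
          rw [t3, Finset.card_erase_of_mem hiR, Nat.cast_sub (Finset.card_pos.2 ⟨i, hiR⟩)]
          simp only [Nat.cast_one]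
          ring
        · rw [if_neg hc]
          symm
          refine Finset.sum_eq_zero fun j _ => ?_
          rw [if_neg]
          intro h
          exact hc ((Finset.singleton_subset_iff.2 (h (Finset.mem_insert_self i _))))
      rw [Finset.sum_congr rfl t1, Finset.sum_comm, Finset.mul_sum]
      refine Finset.sum_congr rfl fun j hj => ?_
      exact two i hi j (Finset.mem_of_mem_erase hj) (Finset.ne_of_mem_erase hj).symm
    refine s1.trans ?_
    rw [Finset.sum_add_distrib, ← Finset.sum_div, ← Finset.mul_sum, s2, one' i hi]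
    have hprod : 0 ≤ ∏ j ∈ P.erase i, (1 - a j / 2) :=
      Finset.prod_nonneg fun j _ => by
        have := ha1 j
        linarith
    have h2k : (0 : ℝ) ≤ 2 ^ k := by positivity
    have hfin : 2 ^ k * (a i / 2 * ∏ j ∈ P.erase i, (1 - a j / 2)) ≤
        a i * (2 ^ k * ∏ j ∈ P.erase i, (1 - a j / 2)) := by
      have h0 := mul_nonneg (mul_nonneg (ha0 i) h2k) hprod
      nlinarith
    have hfin2 : a i * (∑ j ∈ P.erase i, a j) / ((k : ℝ) - 1) =
        a i * ((∑ j ∈ P.erase i, a j) / ((k : ℝ) - 1)) := by ring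
    rw [hfin2, mul_add]
    linarith

end Pool.Agent.Helper57.SL
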